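import Mathlib
import Pool.Agent.H3.BI.Stm1

set_option autoImplicit false

open scoped ENNReal
open Finset MeasureTheory

namespace Pool.Agent.H57.BD

open Pool.Agent.H3.BI

theorem pow_le_quad (s : ℝ) (h0 : 0 ≤ s) (h1 : s ≤ 1) (k : ℕ) :
    (1 - s) ^ k ≤ 1 - k * s + (k : ℝ) ^ 2 * s ^ 2 := by
  induction k with
  | zero => simp
  | succ k ih =>
    have h2 : (1 - s) ^ (k + 1) ≤ (1 - k * s + (k : ℝ) ^ 2 * s ^ 2) * (1 - s) := by
      rw [pow_succ]
      exact mul_le_mul_of_nonneg_right ih (by linarith)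
    refine h2.trans ?_
    push_cast
    have hk : (0 : ℝ) ≤ k := Nat.cast_nonneg k
    nlinarith [mul_nonneg hk (sq_nonneg s), mul_nonneg (mul_nonneg hk hk) (mul_nonneg h0 (sq_nonneg s)),
      sq_nonneg s]

theorem t_GFM : S_GFM := by
  intro ν hν
  have h1 : HasSum (fun k => (ν k).toReal) 1 := by
    have h := ENNReal.hasSum_toReal (f := fun k => ν k) (by rw [ν.tsum_coe]; exact ENNReal.one_ne_top)
    have h3 : ∑' x, (ν x).toReal = 1 := by
      rw [← ENNReal.tsum_toReal_eq (fun k => ν.apply_ne_top k), ν.tsum_coe, ENNReal.toReal_one]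
    rwa [h3] at h
  have hm := hν.mean
  have hv : Summable fun k : ℕ => (ν k).toReal * ((k : ℝ) - 1) ^ 2 := by
    by_contra hcon
    have h := hν.var
    rw [tsum_eq_zero_of_not_summable hcon] at h
    exact lt_irrefl _ h
  have h2 : Summable fun k : ℕ => (ν k).toReal * (k : ℝ) ^ 2 := by
    have h := (hv.add (hm.summable.mul_left 2)).sub h1.summable
    refine h.congr fun k => ?_
    ring
  obtain ⟨m2, hm2⟩ : ∃ m2, m2 = ∑' k : ℕ, (ν k).toReal * (k : ℝ) ^ 2 := ⟨_, rfl⟩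
  have h2' : HasSum (fun k : ℕ => (ν k).toReal * (k : ℝ) ^ 2) m2 := by
    rw [hm2]
    exact h2.hasSum
  refine ⟨max 1 m2, le_max_left _ _, fun s h0 hs => ?_⟩
  have hsum : HasSum (fun k : ℕ => (ν k).toReal * (1 - k * s + (k : ℝ) ^ 2 * s ^ 2))
      (1 - s + m2 * s ^ 2) := by
    have h := (h1.sub (hm.mul_right s)).add (h2'.mul_right (s ^ 2))
    rw [one_mul] at h
    have h3 : (fun k : ℕ => (ν k).toReal - (ν k).toReal * (k : ℝ) * s +
        (ν k).toReal * (k : ℝ) ^ 2 * s ^ 2) =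
        fun k : ℕ => (ν k).toReal * (1 - k * s + (k : ℝ) ^ 2 * s ^ 2) := by
      funext k
      ring
    rwa [h3] at h
  have hnn : ∀ k : ℕ, 0 ≤ (ν k).toReal * (1 - s) ^ k := fun k =>
    mul_nonneg ENNReal.toReal_nonneg (pow_nonneg (by linarith) _)
  have hle : ∀ k : ℕ, (ν k).toReal * (1 - s) ^ k ≤
      (ν k).toReal * (1 - k * s + (k : ℝ) ^ 2 * s ^ 2) := fun k =>
    mul_le_mul_of_nonneg_left (pow_le_quad s h0 hs k) ENNReal.toReal_nonneg
  have hs1 : Summable fun k : ℕ => (ν k).toReal * (1 - s) ^ k :=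
    Summable.of_nonneg_of_le hnn hle hsum.summable
  have heq : ∑' k : ℕ, ν k * ENNReal.ofReal ((1 - s) ^ k) =
      ENNReal.ofReal (∑' k : ℕ, (ν k).toReal * (1 - s) ^ k) := by
    rw [ENNReal.ofReal_tsum_of_nonneg hnn hs1]
    refine tsum_congr fun k => ?_
    rw [ENNReal.ofReal_mul ENNReal.toReal_nonneg, ENNReal.ofReal_toReal (ν.apply_ne_top k)]
  rw [heq]
  refine ENNReal.ofReal_le_ofReal ?_
  calc ∑' k : ℕ, (ν k).toReal * (1 - s) ^ k ≤
      ∑' k : ℕ, (ν k).toReal * (1 - k * s + (k : ℝ) ^ 2 * s ^ 2) :=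
        hs1.tsum_le_tsum hle hsum.summable
    _ = 1 - s + m2 * s ^ 2 := hsum.tsum_eq
    _ ≤ 1 - s + max 1 m2 * s ^ 2 := by
        have := mul_le_mul_of_nonneg_right (le_max_right 1 m2) (sq_nonneg s)
        linarith

end Pool.Agent.H57.BD
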