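import Mathlib
import Pool.Agent.H3.BI.Stm1

set_option autoImplicit false

open scoped ENNReal
open Finset MeasureTheory

namespace Pool.Agent.H57.BD

open Pool.Agent.H3.BI

theorem card_dir (d : ℕ) : (Finset.univ : Finset (Dir d)).card = 2 * d := by
  rw [Finset.card_univ, Fintype.card_prod, Fintype.card_fin, Fintype.card_bool, mul_comm]

/-- If all neighbours have values at most `m` and the mean is at least `m`, all are equal to `m`. -/
theorem eq_of_mean {d : ℕ} (hd : 3 ≤ d) {f : Site d → ℝ} {x : Site d} {m : ℝ}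
    (h1 : ∀ e : Dir d, f (x + uvec e) ≤ m) (h2 : m ≤ PP f x) (e : Dir d) :
    f (x + uvec e) = m := by
  by_contra hne
  have hlt : f (x + uvec e) < m := lt_of_le_of_ne (h1 e) hne
  have h3 : ∑ e : Dir d, f (x + uvec e) < ∑ _e : Dir d, m :=
    Finset.sum_lt_sum (fun e _ => h1 e) ⟨e, Finset.mem_univ _, hlt⟩
  rw [Finset.sum_const, card_dir, nsmul_eq_mul] at h3
  unfold PP at h2
  have hd0 : (0 : ℝ) < 2 * d := by
    have : (3 : ℝ) ≤ d := by exact_mod_cast hd
    linarith
  rw [le_div_iff₀ hd0] at h2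
  push_cast at h3
  linarith

theorem nsq_uvec {d : ℕ} (x : Site d) (e : Dir d) :
    nrm (x + uvec e) ≤ nrm x + 1 := by
  have h1 : nsq (x + uvec e) ≤ (nrm x + 1) ^ 2 := by
    have h2 : nsq (x + uvec e) = nsq x + 2 * (if e.2 then 1 else -1) * (x e.1 : ℝ) + 1 := by
      unfold nsq
      have h3 : ∀ i, (((x + uvec e) i : ℤ) : ℝ) ^ 2 =
          (x i : ℝ) ^ 2 + (if i = e.1 then 2 * (if e.2 then 1 else -1) * (x e.1 : ℝ) + 1 else 0) := by
        intro i
        rw [Pi.add_apply]
        unfold uvec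
        by_cases hi : i = e.1
        · subst hi
          rw [Pi.single_eq_same, if_pos rfl]
          split_ifs
          · push_cast; ring
          · push_cast; ring
        · rw [Pi.single_eq_of_ne hi, if_neg hi]
          push_cast; ring
      rw [Finset.sum_congr rfl fun i _ => h3 i, Finset.sum_add_distrib, Finset.sum_ite_eq']
      rw [if_pos (Finset.mem_univ _)]
      ring
    have h4 : |(x e.1 : ℝ)| ≤ nrm x := by
      rw [← Real.sqrt_sq_eq_abs]
      exact Real.sqrt_le_sqrt (Finset.single_le_sum (f := fun i => (x i : ℝ) ^ 2)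
        (fun _ _ => sq_nonneg _) (Finset.mem_univ e.1))
    have h5 := nrm_sq x
    rw [abs_le] at h4
    rw [h2]
    split_ifs
    · nlinarith
    · nlinarith
  rw [nrm]
  exact Real.sqrt_le_iff.2 ⟨by linarith [nrm_nonneg x], h1⟩

theorem t_MAX : S_MAX := by
  classical
  intro d R q w W hd hR hw hW hsup
  have hd0 : (0 : ℝ) < 2 * d := by
    have : (3 : ℝ) ≤ d := by exact_mod_cast hd
    linarith
  obtain ⟨u, hu⟩ : ∃ u : Site d → ℝ, u = fun x => w x - W x := ⟨_, rfl⟩
  have hux : ∀ x, u x = w x - W x := fun x => by rw [hu]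
  have hPP : ∀ x, PP u x = PP w x - PP W x := by
    intro x
    unfold PP
    simp only [hux, Finset.sum_sub_distrib]
    rw [sub_div]
  have hout : ∀ x, nrm x ≤ R + 1 → R < nrm x → u x ≤ 0 := by
    intro x h1 h2
    rw [hux, hw.out x h2]
    linarith [hW x h1]
  by_contra hcon
  push Not at hcon
  obtain ⟨x1, hx1, hx1'⟩ := hcon
  have hu1 : 0 < u x1 := by rw [hux]; linarith
  have hx1R : nrm x1 ≤ R := by
    by_contra h
    push Not at h
    linarith [hout x1 hx1 h]
  obtain ⟨x2, hx2, hmax⟩ := (bF d R).exists_max_image u ⟨x1, (mem_bF R x1).2 hx1R⟩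
  obtain ⟨m, hm⟩ : ∃ m, m = u x2 := ⟨_, rfl⟩
  have hm0 : 0 < m := by
    rw [hm]
    exact hu1.trans_le (hmax x1 ((mem_bF R x1).2 hx1R))
  have hle : ∀ x, nrm x ≤ R + 1 → u x ≤ m := by
    intro x hx
    rcases le_or_gt (nrm x) R with h | h
    · rw [hm]
      exact hmax x ((mem_bF R x).2 h)
    · exact (hout x hx h).trans hm0.le
  have hne : ((bF d R).filter fun x => u x = m).Nonempty :=
    ⟨x2, Finset.mem_filter.2 ⟨hx2, hm.symm⟩⟩
  let i0 : Fin d := ⟨0, by omega⟩
  obtain ⟨x, hx, hxmax⟩ := Finset.exists_max_image _ (fun x : Site d => x i0) hne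
  rw [Finset.mem_filter, mem_bF] at hx
  have h1 : m ≤ PP u x := by
    rw [hPP, ← hx.2, hux]
    have h2 := hw.eq x hx.1
    have h3 := hsup x hx.1
    linarith
  have h2 := eq_of_mean hd (f := u) (x := x) (m := m)
    (fun e => hle _ ((nsq_uvec x e).trans (by linarith [hx.1]))) h1 (i0, true)
  have h3 : nrm (x + uvec (i0, true)) ≤ R := by
    by_contra h
    push Not at h
    have := hout _ ((nsq_uvec x (i0, true)).trans (by linarith [hx.1])) h
    linarith
  have h4 := hxmax _ (Finset.mem_filter.2 ⟨(mem_bF R _).2 h3, h2⟩)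
  have h5 : (x + uvec (i0, true)) i0 = x i0 + 1 := by
    rw [Pi.add_apply]
    unfold uvec
    simp
  rw [h5] at h4
  omega

end Pool.Agent.H57.BD
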